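import Pool.Agent.Helper41.LF.GoalsA

/-!
# Project LF: packet ONP
-/

set_option autoImplicit false

namespace Pool.Agent.Helper35.LF

open Pool.Agent.Helper41.LF
open MeasureTheory Finset

theorem exists_vandermonde_notMem (d j : ℕ) (v : Fin j → Fin (d + 1) → ℚ) (hj : j ≤ d) :
    ∃ m : Fin (d + 1), (fun i : Fin (d + 1) => ((m : ℕ) : ℚ) ^ (i : ℕ)) ∉ Submodule.span ℚ (Set.range v) := by
  by_contra hcon
  push Not at hcon
  have h1 : LinearIndependent ℚ (fun m : Fin (d + 1) => fun i : Fin (d + 1) => ((m : ℕ) : ℚ) ^ (i : ℕ)) := by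
    have h2 : (Matrix.vandermonde (fun m : Fin (d + 1) => ((m : ℕ) : ℚ))).det ≠ 0 := by
      rw [Matrix.det_vandermonde_ne_zero_iff]
      intro a b hab
      have h3 : ((a : ℕ) : ℚ) = ((b : ℕ) : ℚ) := hab
      exact Fin.ext (by exact_mod_cast h3)
    exact Matrix.linearIndependent_rows_of_det_ne_zero h2
  have h2 : Submodule.span ℚ (Set.range (fun m : Fin (d + 1) => fun i : Fin (d + 1) => ((m : ℕ) : ℚ) ^ (i : ℕ))) ≤
      Submodule.span ℚ (Set.range v) := by
    rw [Submodule.span_le]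
    rintro _ ⟨m, rfl⟩
    exact hcon m
  have h3 := Submodule.finrank_mono h2
  rw [finrank_span_eq_card h1, Fintype.card_fin] at h3
  have h4 : Module.finrank ℚ (Submodule.span ℚ (Set.range v)) ≤ j := by
    have := finrank_range_le_card (R := ℚ) v
    rwa [Fintype.card_fin] at this
  omega

theorem thm_ONP (hN : S_NZM) : S_ONP := by
  intro d j a K β hK hj hβ
  obtain ⟨m, hm⟩ := exists_vandermonde_notMem d j (fun k => toQ (β k)) hj
  refine ⟨m, Nat.lt_succ_iff.1 m.2, ?_⟩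
  -- the vectors `u`
  have hu : LinearIndependent ℚ (fun k : Fin j => fun i : Fin d =>
      (β k 0 : ℚ) * ((m : ℕ) : ℚ) ^ ((i : ℕ) + 1) - (β k i.succ : ℚ)) := by
    rw [Fintype.linearIndependent_iff]
    intro g hg
    have hw : ∀ i : Fin (d + 1), (∑ k, g k • toQ (β k)) i =
        (∑ k, g k • toQ (β k)) 0 * ((m : ℕ) : ℚ) ^ (i : ℕ) := by
      intro i
      refine Fin.cases ?_ (fun i => ?_) i
      · simp
      · have h1 := congrFun hg i
        simp only [Finset.sum_apply, Pi.smul_apply, smul_eq_mul, Pi.zero_apply] at h1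
        simp only [Finset.sum_apply, Pi.smul_apply, smul_eq_mul, toQ, Fin.val_succ]
        rw [Finset.sum_mul, ← sub_eq_zero, ← neg_eq_zero, neg_sub, ← Finset.sum_sub_distrib]
        rw [← h1]
        apply Finset.sum_congr rfl
        intro k _
        ring
    have hmem : (∑ k, g k • toQ (β k)) ∈ Submodule.span ℚ (Set.range fun k => toQ (β k)) :=
      Submodule.sum_mem _ fun k _ => Submodule.smul_mem _ _ (Submodule.subset_span ⟨k, rfl⟩)
    have hw0 : (∑ k, g k • toQ (β k)) 0 = 0 := by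
      by_contra h0
      apply hm
      have h2 : (fun i : Fin (d + 1) => ((m : ℕ) : ℚ) ^ (i : ℕ)) =
          ((∑ k, g k • toQ (β k)) 0)⁻¹ • (∑ k, g k • toQ (β k)) := by
        funext i
        rw [Pi.smul_apply, hw i, smul_eq_mul, inv_mul_cancel_left₀ h0]
      rw [h2]
      exact Submodule.smul_mem _ _ hmem
    have hw' : (∑ k, g k • toQ (β k)) = 0 := by
      funext i
      rw [hw i, hw0, zero_mul]
      rfl
    exact Fintype.linearIndependent_iff.1 hβ g hw'
  obtain ⟨r, hr⟩ := hN j d _ hu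
  -- the integer determinant
  have hcast : ((Matrix.det (Matrix.of fun (k l : Fin j) =>
      β k 0 * ((m : ℕ) : ℤ) ^ ((r l : ℕ) + 1) - β k (r l).succ) : ℤ) : ℚ) =
      Matrix.det (Matrix.of fun (k l : Fin j) =>
        (β k 0 : ℚ) * ((m : ℕ) : ℚ) ^ ((r l : ℕ) + 1) - (β k (r l).succ : ℚ)) := by
    have h1 := RingHom.map_det (Int.castRingHom ℚ) (Matrix.of fun (k l : Fin j) =>
      β k 0 * ((m : ℕ) : ℤ) ^ ((r l : ℕ) + 1) - β k (r l).succ)
    have h2 : (Int.castRingHom ℚ).mapMatrix (Matrix.of fun (k l : Fin j) =>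
        β k 0 * ((m : ℕ) : ℤ) ^ ((r l : ℕ) + 1) - β k (r l).succ) = Matrix.of fun (k l : Fin j) =>
        (β k 0 : ℚ) * ((m : ℕ) : ℚ) ^ ((r l : ℕ) + 1) - (β k (r l).succ : ℚ) := by
      ext k l
      simp
    rw [h2] at h1
    exact h1
  have hne : Matrix.det (Matrix.of fun (k l : Fin j) =>
      β k 0 * ((m : ℕ) : ℤ) ^ ((r l : ℕ) + 1) - β k (r l).succ) ≠ 0 := by
    intro h0
    apply hr
    rw [← hcast, h0, Int.cast_zero]
  have hone : (1 : ℝ) ≤ |((Matrix.det (Matrix.of fun (k l : Fin j) =>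
      β k 0 * ((m : ℕ) : ℤ) ^ ((r l : ℕ) + 1) - β k (r l).succ) : ℤ) : ℝ)| := by
    rw [← Int.cast_abs]
    exact_mod_cast Int.one_le_abs hne
  -- the minor
  have hmnr : mnr a K ((m : ℕ) : ℝ) β (fun l => (r l).succ) = K ^ j * ((Matrix.det (Matrix.of fun (k l : Fin j) =>
      β k 0 * ((m : ℕ) : ℤ) ^ ((r l : ℕ) + 1) - β k (r l).succ) : ℤ) : ℝ) := by
    have h1 := RingHom.map_det (Int.castRingHom ℝ) (Matrix.of fun (k l : Fin j) =>
      β k 0 * ((m : ℕ) : ℤ) ^ ((r l : ℕ) + 1) - β k (r l).succ)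
    have h3 : ((Matrix.det (Matrix.of fun (k l : Fin j) =>
      β k 0 * ((m : ℕ) : ℤ) ^ ((r l : ℕ) + 1) - β k (r l).succ) : ℤ) : ℝ) =
      ((Int.castRingHom ℝ).mapMatrix (Matrix.of fun (k l : Fin j) =>
      β k 0 * ((m : ℕ) : ℤ) ^ ((r l : ℕ) + 1) - β k (r l).succ)).det := h1
    rw [h3]
    unfold mnr
    have h4 : (Matrix.of fun (k l : Fin j) => hx d a K ((m : ℕ) : ℝ) (β k) (r l).succ) =
        K • ((Int.castRingHom ℝ).mapMatrix (Matrix.of fun (k l : Fin j) =>
      β k 0 * ((m : ℕ) : ℤ) ^ ((r l : ℕ) + 1) - β k (r l).succ)) := by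
      ext k l
      simp [hx, Fin.succ_ne_zero]
    rw [h4, Matrix.det_smul, Fintype.card_fin]
  have hK1 : (1 : ℝ) ≤ K ^ j := one_le_pow₀ hK
  calc (1 : ℝ) ≤ |mnr a K ((m : ℕ) : ℝ) β (fun l => (r l).succ)| := by
        rw [hmnr, abs_mul, abs_of_nonneg (by positivity : (0 : ℝ) ≤ K ^ j)]
        calc (1 : ℝ) = 1 * 1 := (one_mul 1).symm
          _ ≤ _ := mul_le_mul hK1 hone zero_le_one (by positivity)
    _ ≤ psi a K β ((m : ℕ) : ℝ) := by
        unfold psi
        exact Finset.single_le_sum (f := fun r => |mnr a K ((m : ℕ) : ℝ) β r|) (fun r _ => abs_nonneg _)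
          (Finset.mem_univ _)

end Pool.Agent.Helper35.LF
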